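import Mathlib
import Pool.Agent.W528.Odd.Final2
import Pool.Agent.W528.Tor.MainE

/-!
# Square-zero elements of rank one, two or odd rank

The rank two part is helper528's `Pool.Agent.W528.Tor.core`, the odd part his `coreProp_odd`.
-/

set_option linter.unusedSectionVars false
set_option linter.deprecated false

namespace Pool.Agent.W16.OM

open Module Pool.Agent.H204R3.SP Pool.Agent.H204R3.GP Pool.Agent.W522.U Pool.Agent.W529.Ta
open Pool.Agent.W528.Tor (AltDual)
open Pool.Agent.W528.Odd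

noncomputable section

variable {K : Type} [Field K] [CharZero K] {X : Type} [AddCommGroup X] [Module K X]
  [FiniteDimensional K X] {Γ : Type} [Group Γ] {R : Representation K Γ X} {χ : Γ →* K}

/-- The core property for an element with `(γ - 1) ^ 2 = 0` of rank at most two. -/
theorem coreProp_small [IsAlgClosed K] (ω : X →ₗ[K] X →ₗ[K] K)
    (hnd : ∀ u, (∀ v, ω u v = 0) → u = 0)
    (hωR : ∀ g u v, ω (R g u) (R g v) = χ g * ω u v) {U : Submodule K X} (hU : SI R U)
    {γ : Γ} (hγ : (R γ - 1) * (R γ - 1) = 0) (hne : U.map (R γ - 1) ≠ ⊥)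
    (hr : finrank K (U.map (R γ - 1)) ≤ 2) : CoreProp R χ U := by
  intro Δ hΔ hUΔ 𝔥 om halt hnd' hsim hbr hconj hsp hlie
  obtain ⟨x, hx, hx0⟩ := exists_ne hne
  have hχ : χ γ = 1 := unip_chi ω hnd hωR γ hγ hx0
  obtain ⟨N, hN, hNx⟩ := hlie _ (unip_lieT R χ γ hγ hχ)
  have hN2 : N * N = 0 := by
    have h3 := sq_res hNx 0 (by rw [hγ, zero_smul])
    rw [h3, zero_smul]
  have hN0 : N ≠ 0 := by
    intro h
    apply hx0
    have h1 := hNx ⟨x, hx⟩
    rw [h, LinearMap.zero_apply] at h1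
    exact h1.symm
  obtain ⟨M, hM0, hM⟩ := exists_pow_mem Δ hΔ γ
  have hMK : (M : K) ≠ 0 := Nat.cast_ne_zero.2 hM0
  have hrk : finrank K (LinearMap.range ((M : K) • N)) ≤ 2 := by
    rw [LinearMap.range_smul _ _ hMK]
    have h2 := rk_res hNx
    unfold rk at h2
    rw [h2]
    exact hr
  have hMN : (M : K) • N ∈ 𝔥 := 𝔥.smul_mem _ hN
  obtain ⟨a, b, hab, hNab⟩ := Pool.Agent.W528.Tor.exists_SS om halt hnd' (hsp _ hMN)
    (by rw [smul_mul_smul_comm, hN2, smul_zero]) hrk
  have hirr := sIrr_res hU Δ hΔ hUΔ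
  refine Pool.Agent.W528.Tor.core om (resR R Δ U hUΔ) (χ.comp Δ.subtype) halt hnd' hsim ?_ 𝔥 hbr
    hconj hsp hab ?_ ?_ (t := ⟨γ ^ M, hM⟩) ?_
  · exact hirr
  · rw [← hNab]
    exact smul_ne_zero hMK hN0
  · rw [← hNab]
    exact hMN
  · rw [← hNab]
    refine LinearMap.ext fun u => Subtype.ext ?_
    rw [resR_apply]
    change R (γ ^ M) (u : X) = _
    rw [unip_pow R γ hγ, LinearMap.add_apply, LinearMap.add_apply, Submodule.coe_add,
      LinearMap.smul_apply, LinearMap.smul_apply, Submodule.coe_smul, hNx]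
    rfl

/-- For every strongly irreducible subspace `U` of dimension at least two there is an element `γ`
of the group with `(γ - 1) ^ 2 = 0` such that the rank of `γ - 1` on `U` is one, or it is two or
odd and `U` is self-dual with an alternating pairing. -/
def HasUnipotents (R : Representation K Γ X) (χ : Γ →* K) : Prop :=
  ∀ U, SI R U → 2 ≤ finrank K U → ∃ γ : Γ, (R γ - 1) * (R γ - 1) = 0 ∧
    (finrank K (U.map (R γ - 1)) = 1 ∨
      ((finrank K (U.map (R γ - 1)) = 2 ∨ Odd (finrank K (U.map (R γ - 1)))) ∧ AltDual R χ U))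

theorem main_all [IsAlgClosed K] (ω : X →ₗ[K] X →ₗ[K] K)
    (hnd : ∀ u, (∀ v, ω u v = 0) → u = 0)
    (hωR : ∀ g u v, ω (R g u) (R g v) = χ g * ω u v)
    (hP : WeakHodgeGenerate R χ)
    (hcu : HasUnipotents R χ) (hR2 : LinesNotSelfDual R χ) (hH : TwistFree R χ)
    (hD : DetIndependent R χ) (hss : HasProj R)
    {m : ℕ} (φ : MultilinearMap K (fun _ : Fin m × Fin 2 => X) K) (hφ : IsTate R χ m φ) :
    φ ∈ Submodule.span K (PT R χ m) := by
  refine main_X3 ω hnd hωR ?_ hss hR2 hH hD φ hφ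
  intro U hU h2
  obtain ⟨γ, hγ, hr | ⟨hr, halt⟩⟩ := hcu U hU h2
  · exact ⟨γ, hγ, Or.inl hr⟩
  · have hne : U.map (R γ - 1) ≠ ⊥ := by
      intro h
      rw [h, finrank_bot] at hr
      rcases hr with hr | hr
      · exact absurd hr (by decide)
      · exact absurd hr (by decide)
    refine ⟨γ, hγ, Or.inr ⟨hne, halt, ?_⟩⟩
    rcases hr with hr | hr
    · exact coreProp_small ω hnd hωR hU hγ hne hr.le
    · exact coreProp_odd ω hnd hωR hss hP hU hγ hr

end

end Pool.Agent.W16.OM
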